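import Mathlib

/-!
# Translation KM-arcs from inequivalent clubs are inequivalent

Let `F` be a finite field of characteristic two.  To an additive subgroup (an `𝔽₂`-subspace) `U` of
`F × F` with `|U| = |F|` and a vector `v` outside the line `X₂ = 0` one attaches the point set
`arc U v` of the plane `PG(2, F)`.  We prove that `arc U₁ v₁` and `arc U₂ v₂` are equivalent under
`PΓL(3, F)` if and only if `U₁` and `U₂` are equivalent under `ΓL(2, F)`.

Idea: a collineation `φ` with `φ (arc U₁ v₁) = arc U₂ v₂` may be multiplied on both sides by the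
elations with axis `X₂ = 0` given by the subgroups; these are transitive on the affine points of the
arcs.  Commutator-like words in these elations and `φ` move the line `φ (ℓ)` to `ℓ` in two steps.
-/

set_option linter.unusedSectionVars false

namespace Pool.Agent.Results.MP_5fce70_co.InequivalentArcs

open Submodule

universe u

/-- The vector space underlying the plane `PG(2, F)`; a vector is `((x₀, x₁), x₂)`. -/
abbrev V3 (F : Type u) := (F × F) × F

section defs

variable {F : Type u} [Field F]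

/-- The linear set `L_U`, the set of all points `⟨u⟩` with `u ∈ U` nonzero. -/
def linSet {V : Type u} [AddCommGroup V] [Module F V] (U : AddSubgroup V) :
    Set (Submodule F V) :=
  {P | ∃ u ∈ U, u ≠ 0 ∧ P = span F {u}}

/-- The set of points of the line `ℓ : X₂ = 0`. -/
def ellLine : Set (Submodule F (V3 F)) := {P | ∃ w : V3 F, w ≠ 0 ∧ w.2 = 0 ∧ P = span F {w}}

/-- The subgroup `U` of `F × F`, seen as a subgroup of the hyperplane `X₂ = 0` of `V3 F`. -/
def emb (U : AddSubgroup (F × F)) : AddSubgroup (V3 F) := U.map (AddMonoidHom.inl (F × F) F)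

/-- The point set `(L_{U'} ∖ ℓ) ∪ (ℓ ∖ L_U)`, where `U' = U ⊕ ⟨v⟩` (over the prime field). -/
def arc (U : AddSubgroup (F × F)) (v : V3 F) : Set (Submodule F (V3 F)) :=
  (linSet (emb U ⊔ AddSubgroup.zmultiples v) \ ellLine) ∪ (ellLine \ linSet (emb U))

/-- `L_U` is an `i`-club of rank `n`: the additive group `U` has `2 ^ n` elements, some point of
`L_U` has weight `i` and all other points of `L_U` have weight `1`; here the weight of a point `P` is
`k` if `U ∩ P` has `2 ^ k` elements. -/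
def IsClub (n i : ℕ) (U : AddSubgroup (F × F)) : Prop :=
  Nat.card U = 2 ^ n ∧ ∃ P ∈ linSet (F := F) U,
    Nat.card {u : F × F // u ∈ U ∧ u ∈ P} = 2 ^ i ∧
    ∀ P' ∈ linSet (F := F) U, P' ≠ P → Nat.card {u : F × F // u ∈ U ∧ u ∈ P'} = 2 ^ 1

/-- `U₁` and `U₂` are `ΓL(2, F)`-equivalent. -/
def GammaEquiv (U₁ U₂ : AddSubgroup (F × F)) : Prop :=
  ∃ (σ : F ≃+* F) (N : (F × F) ≃+ (F × F)),
    (∀ (c : F) (x : F × F), N (c • x) = σ c • N x) ∧ ∀ x, x ∈ U₁ ↔ N x ∈ U₂

/-- The point sets `A` and `B` of `PG(2, F)` are `PΓL(3, F)`-equivalent: some semilinear bijection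
`φ` of `V3 F` induces a collineation which maps `A` onto `B`. -/
def CollEquiv (A B : Set (Submodule F (V3 F))) : Prop :=
  ∃ (σ : F ≃+* F) (φ : V3 F ≃+ V3 F),
    (∀ (c : F) (x : V3 F), φ (c • x) = σ c • φ x) ∧
    ∀ x : V3 F, x ≠ 0 → (span F {x} ∈ A ↔ span F {φ x} ∈ B)

end defs

variable {F : Type u} [Field F]

lemma mem_linSet {V : Type u} [AddCommGroup V] [Module F V] (U : AddSubgroup V) (x : V)
    (hx : x ≠ 0) : span F {x} ∈ linSet (F := F) U ↔ ∃ c : F, c ≠ 0 ∧ c • x ∈ U := by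
  constructor
  · rintro ⟨u, hu, hu0, h⟩
    rw [Submodule.span_singleton_eq_span_singleton] at h
    obtain ⟨z, rfl⟩ := h
    exact ⟨(z : F), z.ne_zero, hu⟩
  · rintro ⟨c, hc, h⟩
    refine ⟨c • x, h, smul_ne_zero hc hx, ?_⟩
    rw [Submodule.span_singleton_eq_span_singleton]
    exact ⟨Units.mk0 c hc, rfl⟩

lemma mem_ellLine (x : V3 F) (hx : x ≠ 0) : span F {x} ∈ ellLine (F := F) ↔ x.2 = 0 := by
  constructor
  · rintro ⟨w, hw, hw2, h⟩
    have : x ∈ span F {w} := by rw [← h]; exact mem_span_singleton_self x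
    obtain ⟨c, rfl⟩ := mem_span_singleton.1 this
    simp [hw2]
  · intro h
    exact ⟨x, hx, h, rfl⟩

lemma mem_emb (U : AddSubgroup (F × F)) (x : V3 F) : x ∈ emb U ↔ x.1 ∈ U ∧ x.2 = 0 := by
  constructor
  · rintro ⟨u, hu, rfl⟩
    exact ⟨hu, rfl⟩
  · rintro ⟨h1, h2⟩
    exact ⟨x.1, h1, Prod.ext rfl h2.symm⟩

lemma zsmul_char_two [CharP F 2] (v : V3 F) (k : ℤ) : k • v = 0 ∨ k • v = v := by
  have h2 : (2 : ℤ) • v = 0 := by
    have : (2 : F) = 0 := by exact_mod_cast CharP.cast_eq_zero F 2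
    have h3 : (2 : ℤ) • v = (2 : F) • v := by
      rw [two_zsmul, two_smul]
    rw [h3, this, zero_smul]
  rcases Int.even_or_odd k with ⟨m, hm⟩ | ⟨m, hm⟩
  · left
    rw [hm, ← two_mul, mul_comm, mul_smul, h2, smul_zero]
  · right
    rw [hm, add_smul, mul_comm, mul_smul, h2, smul_zero, one_smul, zero_add]

lemma mem_ext [CharP F 2] (U : AddSubgroup (F × F)) (v y : V3 F) :
    y ∈ emb U ⊔ AddSubgroup.zmultiples v ↔ (y ∈ emb U ∨ y - v ∈ emb U) := by
  rw [AddSubgroup.mem_sup]
  constructor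
  · rintro ⟨a, ha, b, ⟨k, rfl⟩, rfl⟩
    rcases zsmul_char_two v k with h | h
    · left
      simp only [h, add_zero]
      exact ha
    · right
      simp only [h, add_sub_cancel_right]
      exact ha
  · rintro (h | h)
    · exact ⟨y, h, 0, AddSubgroup.zero_mem _, add_zero _⟩
    · exact ⟨y - v, h, v, AddSubgroup.mem_zmultiples v, sub_add_cancel _ _⟩

/-- The set of (vectors of) points of the arc. -/
def Cone (U : AddSubgroup (F × F)) (v x : V3 F) : Prop :=
  (x.2 ≠ 0 ∧ (v.2 / x.2) • x.1 - v.1 ∈ U) ∨ (x.2 = 0 ∧ ∀ c : F, c ≠ 0 → c • x.1 ∉ U)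

lemma mem_arc [CharP F 2] (U : AddSubgroup (F × F)) (v x : V3 F) (hv : v.2 ≠ 0) (hx : x ≠ 0) :
    span F {x} ∈ arc U v ↔ Cone U v x := by
  unfold arc Cone
  simp only [Set.mem_union, Set.mem_sdiff, mem_linSet _ x hx, mem_ellLine x hx]
  by_cases h : x.2 = 0
  · simp only [h, ne_eq, not_true_eq_false, and_false, false_and, true_and, false_or, mem_emb,
      Prod.smul_fst, Prod.smul_snd, smul_zero, and_true, not_exists, not_and]
  · simp only [h, ne_eq, not_false_eq_true, and_true, true_and, false_and, or_false, mem_ext,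
      mem_emb, Prod.smul_fst, Prod.smul_snd, Prod.fst_sub, Prod.snd_sub, smul_eq_mul]
    constructor
    · rintro ⟨c, hc, h1 | h1⟩
      · exact absurd h1.2 (mul_ne_zero hc h)
      · have : c = v.2 / x.2 := by
          rw [eq_div_iff h]
          exact sub_eq_zero.1 h1.2
        rw [← this]
        exact h1.1
    · intro h1
      refine ⟨v.2 / x.2, div_ne_zero hv h, Or.inr ⟨h1, ?_⟩⟩
      rw [div_mul_cancel₀ _ h, sub_self]

lemma cone_zero (U : AddSubgroup (F × F)) (v : V3 F) : ¬ Cone U v 0 := by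
  rintro (h | h)
  · exact h.1 rfl
  · apply h.2 1 one_ne_zero
    simp [U.zero_mem]

lemma cone_smul (U : AddSubgroup (F × F)) (v x : V3 F) (c : F) (hc : c ≠ 0) (h : Cone U v x) :
    Cone U v (c • x) := by
  rcases h with h | h
  · left
    refine ⟨mul_ne_zero hc h.1, ?_⟩
    have : (v.2 / (c • x).2) • (c • x).1 = (v.2 / x.2) • x.1 := by
      simp only [Prod.smul_fst, Prod.smul_snd, smul_eq_mul, smul_smul]
      congr 1
      have := h.1
      field_simp
    rw [this]
    exact h.2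
  · right
    refine ⟨by simp [h.1], ?_⟩
    intro d hd
    have := h.2 (d * c) (mul_ne_zero hd hc)
    rwa [mul_smul] at this

/-- The elation `x ↦ (x.1 + x.2 • w, x.2)`. -/
def trans (w : F × F) : V3 F ≃+ V3 F where
  toFun x := (x.1 + x.2 • w, x.2)
  invFun x := (x.1 - x.2 • w, x.2)
  left_inv x := by simp
  right_inv x := by simp
  map_add' x y := by
    ext <;> simp [add_mul] <;> ring

lemma trans_apply (w : F × F) (x : V3 F) : trans w x = (x.1 + x.2 • w, x.2) := rfl

lemma trans_symm_apply (w : F × F) (x : V3 F) : (trans w).symm x = (x.1 - x.2 • w, x.2) := rfl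

/-- Semilinear bijections between the cones of two arcs. -/
def Good (U₁ : AddSubgroup (F × F)) (v₁ : V3 F) (U₂ : AddSubgroup (F × F)) (v₂ : V3 F)
    (φ : V3 F ≃+ V3 F) : Prop :=
  (∃ σ : F ≃+* F, ∀ (c : F) (x : V3 F), φ (c • x) = σ c • φ x) ∧
    ∀ x, Cone U₁ v₁ x ↔ Cone U₂ v₂ (φ x)

lemma Good.symm {U₁ U₂ : AddSubgroup (F × F)} {v₁ v₂ : V3 F} {φ : V3 F ≃+ V3 F}
    (h : Good U₁ v₁ U₂ v₂ φ) : Good U₂ v₂ U₁ v₁ φ.symm := by
  obtain ⟨⟨σ, hσ⟩, hφ⟩ := h
  refine ⟨⟨σ.symm, ?_⟩, ?_⟩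
  · intro c x
    apply φ.injective
    rw [hσ, φ.apply_symm_apply, φ.apply_symm_apply, σ.apply_symm_apply]
  · intro x
    rw [hφ, φ.apply_symm_apply]

lemma Good.trans {U₁ U₂ U₃ : AddSubgroup (F × F)} {v₁ v₂ v₃ : V3 F} {φ ψ : V3 F ≃+ V3 F}
    (h : Good U₁ v₁ U₂ v₂ φ) (h' : Good U₂ v₂ U₃ v₃ ψ) :
    Good U₁ v₁ U₃ v₃ (φ.trans ψ) := by
  obtain ⟨⟨σ, hσ⟩, hφ⟩ := h
  obtain ⟨⟨τ, hτ⟩, hψ⟩ := h'
  refine ⟨⟨σ.trans τ, ?_⟩, ?_⟩
  · intro c x
    simp only [AddEquiv.trans_apply, hσ, hτ, RingEquiv.trans_apply]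
  · intro x
    rw [hφ, hψ, AddEquiv.trans_apply]

lemma good_trans (U : AddSubgroup (F × F)) (v : V3 F) (w : F × F) (hw : v.2 • w ∈ U) :
    Good U v U v (trans w) := by
  refine ⟨⟨RingEquiv.refl F, ?_⟩, ?_⟩
  · intro c x
    simp only [trans_apply, RingEquiv.refl_apply]
    ext <;> simp <;> ring
  · intro x
    unfold Cone
    simp only [trans_apply]
    by_cases h : x.2 = 0
    · simp [h]
    · have e : (v.2 / x.2) • (x.1 + x.2 • w) - v.1 = ((v.2 / x.2) • x.1 - v.1) + v.2 • w := by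
        rw [smul_add, smul_smul, div_mul_cancel₀ _ h]
        abel
      rw [e]
      simp only [h, ne_eq, not_false_eq_true, true_and, false_and, or_false]
      exact (U.add_mem_cancel_right hw).symm

lemma transitive (U : AddSubgroup (F × F)) (v x y : V3 F) (hx : Cone U v x) (hy : Cone U v y)
    (hx2 : x.2 ≠ 0) (hy2 : y.2 ≠ 0) :
    ∃ w : F × F, v.2 • w ∈ U ∧ ∃ c : F, c ≠ 0 ∧ trans w x = c • y := by
  have hx' : (v.2 / x.2) • x.1 - v.1 ∈ U := by
    rcases hx with h | h
    · exact h.2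
    · exact absurd h.1 hx2
  have hy' : (v.2 / y.2) • y.1 - v.1 ∈ U := by
    rcases hy with h | h
    · exact h.2
    · exact absurd h.1 hy2
  refine ⟨(1 / y.2) • y.1 - (1 / x.2) • x.1, ?_, x.2 / y.2, div_ne_zero hx2 hy2, ?_⟩
  · have := U.sub_mem hy' hx'
    convert this using 1
    rw [smul_sub, smul_smul, smul_smul, mul_one_div, mul_one_div]
    abel
  · rw [trans_apply]
    ext
    · simp
      field_simp
      ring
    · simp
      field_simp
      ring
    · simp
      field_simp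

/-- The two-sided modification of a collineation by elations. -/
lemma modify {U₁ U₂ : AddSubgroup (F × F)} {v₁ v₂ : V3 F} {φ : V3 F ≃+ V3 F}
    (h : Good U₁ v₁ U₂ v₂ φ) (x y p : V3 F) (hx : Cone U₁ v₁ x) (hx2 : (φ x).2 ≠ 0)
    (hy : Cone U₂ v₂ y) (hy2 : (φ.symm y).2 ≠ 0) (hp : Cone U₂ v₂ p) (hp2 : p.2 ≠ 0)
    (hp3 : (φ.symm p).2 ≠ 0) :
    ∃ ψ : V3 F ≃+ V3 F, Good U₁ v₁ U₂ v₂ ψ ∧ (∃ c : F, c ≠ 0 ∧ ψ x = c • y) ∧
      ∀ z : V3 F, z.2 = 0 → (φ z).2 = 0 → ψ z = φ z := by
  obtain ⟨w, hw, c, hc, hg⟩ := transitive U₂ v₂ (φ x) p ((h.2 x).1 hx) hp hx2 hp2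
  have hy1 : Cone U₁ v₁ (φ.symm y) := (h.symm.2 y).1 hy
  have hp1 : Cone U₁ v₁ (φ.symm p) := (h.symm.2 p).1 hp
  obtain ⟨w', hw', c', hc', hg'⟩ := transitive U₁ v₁ (φ.symm y) (φ.symm p) hy1 hp1 hy2 hp3
  have G1 := good_trans U₂ v₂ w hw
  have G2 := good_trans U₁ v₁ w' hw'
  refine ⟨(((φ.trans (trans w)).trans φ.symm).trans (trans w').symm).trans φ,
    (((h.trans G1).trans h.symm).trans G2.symm).trans h, ?_, ?_⟩
  · obtain ⟨⟨σ, hσ⟩, _⟩ := h
    have hσ' : ∀ (c : F) (x : V3 F), φ.symm (c • x) = σ.symm c • φ.symm x := by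
      intro c x
      apply φ.injective
      rw [hσ, φ.apply_symm_apply, φ.apply_symm_apply, σ.apply_symm_apply]
    have hτ : ∀ (c : F) (x : V3 F), (trans w').symm (c • x) = c • (trans w').symm x := by
      intro c x
      simp only [trans_symm_apply]
      ext <;> simp <;> ring
    have e1 : (trans w').symm (φ.symm p) = c'⁻¹ • φ.symm y := by
      rw [AddEquiv.symm_apply_eq]
      have : trans w' (c'⁻¹ • φ.symm y) = c'⁻¹ • trans w' (φ.symm y) := by
        simp only [trans_apply]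
        ext <;> simp <;> ring
      rw [this, hg', smul_smul, inv_mul_cancel₀ hc', one_smul]
    refine ⟨c * σ (c'⁻¹), mul_ne_zero hc ?_, ?_⟩
    · intro h0
      have : c'⁻¹ = 0 := by
        have := (map_eq_zero σ).1 h0
        exact this
      exact inv_ne_zero hc' this
    · simp only [AddEquiv.trans_apply]
      rw [hg, hσ', hτ, e1, hσ, σ.apply_symm_apply, hσ, φ.apply_symm_apply, smul_smul]
  · intro z hz hz2
    simp only [AddEquiv.trans_apply]
    have e1 : trans w (φ z) = φ z := by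
      rw [trans_apply, hz2, zero_smul, add_zero, ← hz2]
    have e2 : (trans w').symm z = z := by
      rw [trans_symm_apply, hz, zero_smul, sub_zero, ← hz]
    rw [e1, φ.symm_apply_apply, e2]

/-- The determinant of two vectors of the plane `F × F`. -/
def det (a b : F × F) : F := a.1 * b.2 - a.2 * b.1

lemma decomp (a b x : F × F) (h : det a b ≠ 0) :
    x = (det x b / det a b) • a + (det a x / det a b) • b := by
  ext
  · simp only [Prod.fst_add, Prod.smul_fst, smul_eq_mul]
    rw [div_mul_eq_mul_div, div_mul_eq_mul_div, ← add_div, eq_div_iff h]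
    unfold det
    ring
  · simp only [Prod.snd_add, Prod.smul_snd, smul_eq_mul]
    rw [div_mul_eq_mul_div, div_mul_eq_mul_div, ← add_div, eq_div_iff h]
    unfold det
    ring

/-- A semilinear bijection which maps two independent vectors of `ℓ` to `ℓ` preserves `ℓ`. -/
lemma preserves {φ : V3 F ≃+ V3 F} (h : ∃ σ : F ≃+* F, ∀ (c : F) (x : V3 F), φ (c • x) = σ c • φ x)
    (a b : V3 F) (ha : a.2 = 0) (hb : b.2 = 0) (hab : det a.1 b.1 ≠ 0) (ha' : (φ a).2 = 0)
    (hb' : (φ b).2 = 0) (x : V3 F) (hx : x.2 = 0) : (φ x).2 = 0 := by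
  obtain ⟨σ, hσ⟩ := h
  have e : x = (det x.1 b.1 / det a.1 b.1) • a + (det a.1 x.1 / det a.1 b.1) • b := by
    apply Prod.ext
    · exact decomp a.1 b.1 x.1 hab
    · simp [ha, hb, hx]
  rw [e, map_add, hσ, hσ]
  simp [ha', hb']

/-- There are two different points of `ℓ` outside `L_U`. -/
lemma exists_two [Finite F] (U : AddSubgroup (F × F)) (hU : Nat.card U = Nat.card F) :
    ∃ a b : F × F, (∀ c : F, c ≠ 0 → c • a ∉ U) ∧ (∀ c : F, c ≠ 0 → c • b ∉ U) ∧ det a b ≠ 0 := by
  classical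
  by_contra hne
  push Not at hne
  let f : Option F → F × F := fun o => o.elim (0, 1) (fun m => (1, m))
  have hf : ∀ o o' : Option F, o ≠ o' → det (f o) (f o') ≠ 0 := by
    intro o o' hoo
    cases o with
    | none =>
      cases o' with
      | none => exact absurd rfl hoo
      | some m => simp [f, det]
    | some m =>
      cases o' with
      | none => simp [f, det]
      | some m' =>
        simp only [f, det, Option.elim_some]
        intro h
        apply hoo
        congr 1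
        linear_combination -h
  have hS : ∀ o o' : Option F, (∀ c : F, c ≠ 0 → c • f o ∉ U) → (∀ c : F, c ≠ 0 → c • f o' ∉ U) →
      o = o' := by
    intro o o' h h'
    by_contra hoo
    exact hf o o' hoo (hne _ _ h h')
  have hch : ∀ o : Option F, ∃ g : U, ((∀ c : F, c ≠ 0 → c • f o ∉ U) ∧ g = 0) ∨
      (∃ c : F, c ≠ 0 ∧ (g : F × F) = c • f o) := by
    intro o
    by_cases h : ∀ c : F, c ≠ 0 → c • f o ∉ U
    · exact ⟨0, Or.inl ⟨h, rfl⟩⟩
    · push Not at h
      obtain ⟨c, hc, hcU⟩ := h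
      exact ⟨⟨c • f o, hcU⟩, Or.inr ⟨c, hc, rfl⟩⟩
  choose g hg using hch
  have hfne : ∀ o, f o ≠ 0 := by
    intro o
    cases o with
    | none => simp [f]
    | some m => simp [f]
  have hinj : Function.Injective g := by
    intro o o' hoo
    rcases hg o with h | ⟨c, hc, h⟩ <;> rcases hg o' with h' | ⟨c', hc', h'⟩
    · exact hS o o' h.1 h'.1
    · exfalso
      rw [← hoo, h.2] at h'
      exact smul_ne_zero hc' (hfne o') h'.symm
    · exfalso
      rw [hoo, h'.2] at h
      exact smul_ne_zero hc (hfne o) h.symm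
    · by_contra hne2
      apply hf o o' hne2
      rw [hoo, h'] at h
      have e1 := congrArg Prod.fst h
      have e2 := congrArg Prod.snd h
      simp only [Prod.smul_fst, Prod.smul_snd, smul_eq_mul] at e1 e2
      have : (c * c') * det (f o) (f o') = 0 := by
        unfold det
        linear_combination (c * (f o).1) * e2 - (c * (f o).2) * e1
      rcases mul_eq_zero.1 this with h3 | h3
      · exact absurd h3 (mul_ne_zero hc hc')
      · exact h3
  have : Finite (F × F) := inferInstance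
  have : Finite U := inferInstance
  have h1 := Nat.card_le_card_of_injective g hinj
  rw [hU] at h1
  have : Nat.card (Option F) = Nat.card F + 1 := Finite.card_option
  omega

/-- The two-step argument: if some collineation maps the first arc to the second one, and the second
subgroup is not contained in a line, then some such collineation preserves `ℓ`. -/
lemma exists_preserving [Finite F] {U₁ U₂ : AddSubgroup (F × F)} {v₁ v₂ : V3 F}
    (hU₁ : Nat.card U₁ = Nat.card F) (hU₂ : Nat.card U₂ = Nat.card F)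
    (hv₂ : v₂.2 ≠ 0) (hs : ∃ a ∈ U₂, ∃ b ∈ U₂, det a b ≠ 0)
    {φ : V3 F ≃+ V3 F} (h : Good U₁ v₁ U₂ v₂ φ) :
    ∃ ψ : V3 F ≃+ V3 F, Good U₁ v₁ U₂ v₂ ψ ∧ ∀ x : V3 F, x.2 = 0 → (ψ x).2 = 0 := by
  obtain ⟨a₁, b₁, ha₁, hb₁, hab₁⟩ := exists_two U₁ hU₁
  obtain ⟨a₂, b₂, ha₂, hb₂, hab₂⟩ := exists_two U₂ hU₂
  -- existence of a point of the second arc off both lines
  have exP : ∀ φ : V3 F ≃+ V3 F, Good U₁ v₁ U₂ v₂ φ →
      ∃ p : V3 F, Cone U₂ v₂ p ∧ p.2 ≠ 0 ∧ (φ.symm p).2 ≠ 0 := by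
    intro φ h
    by_contra hne
    push Not at hne
    obtain ⟨a, ha, b, hb, hab⟩ := hs
    have hcone : ∀ u ∈ U₂, Cone U₂ v₂ (v₂.1 + u, v₂.2) := by
      intro u hu
      left
      refine ⟨hv₂, ?_⟩
      rw [div_self hv₂, one_smul, add_sub_cancel_left]
      exact hu
    have h0 : (φ.symm v₂).2 = 0 := by
      have := hne (v₂.1 + 0, v₂.2) (hcone 0 U₂.zero_mem) hv₂
      simpa using this
    have h1 : ∀ u ∈ U₂, (φ.symm (u, (0 : F))).2 = 0 := by
      intro u hu
      have h2 := hne (v₂.1 + u, v₂.2) (hcone u hu) hv₂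
      have e : ((u, (0 : F)) : V3 F) = (v₂.1 + u, v₂.2) - v₂ := by
        ext <;> simp
      rw [e, map_sub, Prod.snd_sub, h2, h0, sub_zero]
    have hall : ∀ x : V3 F, (φ.symm x).2 = 0 := by
      intro x
      obtain ⟨σ, hσ⟩ := h.symm.1
      have e : x = (x.1 - (x.2 / v₂.2) • v₂.1, (0 : F)) + (x.2 / v₂.2) • v₂ := by
        ext
        · simp
        · simp
        · simp [div_mul_cancel₀ _ hv₂]
      rw [e, map_add, hσ, Prod.snd_add, Prod.smul_snd, h0, smul_zero, add_zero]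
      exact preserves h.symm.1 (a, 0) (b, 0) rfl rfl hab (h1 a ha) (h1 b hb) _ rfl
    have := hall (φ ((0, 0), 1))
    rw [φ.symm_apply_apply] at this
    exact one_ne_zero this
  -- second step
  have step2 : ∀ φ : V3 F ≃+ V3 F, Good U₁ v₁ U₂ v₂ φ →
      (∃ z : V3 F, Cone U₁ v₁ z ∧ z.2 = 0 ∧ (φ z).2 = 0) →
      ∃ ψ : V3 F ≃+ V3 F, Good U₁ v₁ U₂ v₂ ψ ∧ ∀ x : V3 F, x.2 = 0 → (ψ x).2 = 0 := by
    rintro φ h ⟨z, hz, hz2, hφz⟩
    by_cases hpres : ∀ x : V3 F, x.2 = 0 → (φ x).2 = 0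
    · exact ⟨φ, h, hpres⟩
    have hz0 : z.1 ≠ 0 := by
      intro h0
      have : z = 0 := Prod.ext h0 hz2
      rw [this] at hz
      exact cone_zero _ _ hz
    -- a second point on `ℓ` of the first arc
    have hc : ∃ c : F × F, (∀ d : F, d ≠ 0 → d • c ∉ U₁) ∧ det z.1 c ≠ 0 := by
      by_contra hne
      push Not at hne
      have h1 := hne a₁ ha₁
      have h2 := hne b₁ hb₁
      apply hab₁
      -- both are multiples of `z.1`
      unfold det at h1 h2 ⊢
      have hz' : z.1.1 ≠ 0 ∨ z.1.2 ≠ 0 := by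
        by_contra hcon
        push Not at hcon
        exact hz0 (Prod.ext hcon.1 hcon.2)
      rcases hz' with hz' | hz'
      · apply mul_left_cancel₀ hz'
        linear_combination a₁.1 * h2 - b₁.1 * h1
      · apply mul_left_cancel₀ hz'
        linear_combination a₁.2 * h2 - b₁.2 * h1
    obtain ⟨c, hcU, hcz⟩ := hc
    have hcC : Cone U₁ v₁ (c, 0) := Or.inr ⟨rfl, hcU⟩
    have hφc : (φ (c, 0)).2 ≠ 0 := by
      intro h0
      apply hpres
      intro x hx
      exact preserves h.1 z (c, 0) hz2 rfl hcz hφz h0 x hx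
    -- a second point on `ℓ` of the second arc
    have hφz0 : (φ z).1 ≠ 0 := by
      intro h0
      have h1 : φ z = 0 := Prod.ext h0 hφz
      have h2 : z = 0 := by
        have := congrArg φ.symm h1
        simpa using this
      rw [h2] at hz
      exact cone_zero _ _ hz
    have hb : ∃ b : F × F, (∀ d : F, d ≠ 0 → d • b ∉ U₂) ∧ det (φ z).1 b ≠ 0 := by
      by_contra hne
      push Not at hne
      have h1 := hne a₂ ha₂
      have h2 := hne b₂ hb₂
      apply hab₂
      unfold det at h1 h2 ⊢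
      have hz' : (φ z).1.1 ≠ 0 ∨ (φ z).1.2 ≠ 0 := by
        by_contra hcon
        push Not at hcon
        exact hφz0 (Prod.ext hcon.1 hcon.2)
      rcases hz' with hz' | hz'
      · apply mul_left_cancel₀ hz'
        linear_combination a₂.1 * h2 - b₂.1 * h1
      · apply mul_left_cancel₀ hz'
        linear_combination a₂.2 * h2 - b₂.2 * h1
    obtain ⟨b, hbU, hbz⟩ := hb
    have hbC : Cone U₂ v₂ (b, 0) := Or.inr ⟨rfl, hbU⟩
    have hφb : (φ.symm (b, 0)).2 ≠ 0 := by
      intro h0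
      -- then `φ.symm` preserves `ℓ`, hence so does `φ`
      have h1 : ∀ x : V3 F, x.2 = 0 → (φ.symm x).2 = 0 := by
        intro x hx
        refine preserves h.symm.1 (φ z) (b, 0) hφz rfl hbz ?_ h0 x hx
        rw [φ.symm_apply_apply]
        exact hz2
      -- a preserved finite set
      have h2 : ∀ x : V3 F, x.2 = 0 → (φ x).2 = 0 := by
        let g : {x : V3 F // x.2 = 0} → {x : V3 F // x.2 = 0} := fun x => ⟨φ.symm x.1, h1 _ x.2⟩
        have hg : Function.Injective g := by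
          intro x y hxy
          apply Subtype.ext
          have := congrArg Subtype.val hxy
          exact φ.symm.injective this
        have : Finite (V3 F) := inferInstanceAs (Finite ((F × F) × F))
        have hg2 := Finite.surjective_of_injective hg
        intro x hx
        obtain ⟨y, hy⟩ := hg2 ⟨x, hx⟩
        have := congrArg Subtype.val hy
        simp only [g] at this
        rw [← this, φ.apply_symm_apply]
        exact y.2
      exact hpres h2
    obtain ⟨p, hp, hp2, hp3⟩ := exP φ h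
    obtain ⟨ψ, hψ, ⟨e, he, hψc⟩, hψz⟩ := modify h (c, 0) (b, 0) p hcC hφc hbC hφb hp hp2 hp3
    refine ⟨ψ, hψ, ?_⟩
    intro x hx
    refine preserves hψ.1 z (c, 0) hz2 rfl hcz ?_ ?_ x hx
    · rw [hψz z hz2 hφz]
      exact hφz
    · rw [hψc]
      simp
  -- first step
  by_cases hcommon : ∃ z : V3 F, Cone U₁ v₁ z ∧ z.2 = 0 ∧ (φ z).2 = 0
  · exact step2 φ h hcommon
  · push Not at hcommon
    have hC₁ : Cone U₁ v₁ (a₁, 0) := Or.inr ⟨rfl, ha₁⟩
    have hC₂ : Cone U₂ v₂ (a₂, 0) := Or.inr ⟨rfl, ha₂⟩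
    have h1 : (φ (a₁, 0)).2 ≠ 0 := hcommon _ hC₁ rfl
    have h2 : (φ.symm (a₂, 0)).2 ≠ 0 := by
      intro h0
      apply hcommon (φ.symm (a₂, 0)) ((h.symm.2 _).1 hC₂) h0
      rw [φ.apply_symm_apply]
    obtain ⟨p, hp, hp2, hp3⟩ := exP φ h
    obtain ⟨ψ, hψ, ⟨e, he, hψc⟩, _⟩ := modify h (a₁, 0) (a₂, 0) p hC₁ h1 hC₂ h2 hp hp2 hp3
    refine step2 ψ hψ ⟨(a₁, 0), hC₁, rfl, ?_⟩
    rw [hψc]
    simp

/-- A line-preserving collineation of the arcs gives an equivalence of the subgroups. -/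
lemma gamma_of_preserving [Finite F] {U₁ U₂ : AddSubgroup (F × F)} {v₁ v₂ : V3 F}
    (hv₁ : v₁.2 ≠ 0) (hv₂ : v₂.2 ≠ 0) {φ : V3 F ≃+ V3 F} (h : Good U₁ v₁ U₂ v₂ φ)
    (hpres : ∀ x : V3 F, x.2 = 0 → (φ x).2 = 0) : GammaEquiv U₁ U₂ := by
  obtain ⟨⟨σ, hσ⟩, hφ⟩ := h
  -- the image of `v₁`
  have he : (φ v₁).2 ≠ 0 := by
    intro h0
    have hall : ∀ x : V3 F, (φ x).2 = 0 := by
      intro x
      have e : x = (x.1 - (x.2 / v₁.2) • v₁.1, (0 : F)) + (x.2 / v₁.2) • v₁ := by
        ext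
        · simp
        · simp
        · simp [div_mul_cancel₀ _ hv₁]
      rw [e, map_add, hσ, Prod.snd_add, Prod.smul_snd, h0, smul_zero, add_zero]
      exact hpres _ rfl
    have := hall (φ.symm ((0, 0), 1))
    rw [φ.apply_symm_apply] at this
    exact one_ne_zero this
  set e : F := v₂.2 / (φ v₁).2 with hedef
  have he0 : e ≠ 0 := div_ne_zero hv₂ he
  let N₀ : (F × F) →+ (F × F) :=
    { toFun := fun x => e • (φ (x, 0)).1
      map_zero' := by
        have : ((0 : F × F), (0 : F)) = (0 : V3 F) := rfl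
        rw [this, map_zero]
        simp
      map_add' := by
        intro x y
        have : ((x + y, (0 : F)) : V3 F) = (x, 0) + (y, 0) := by simp
        rw [this, map_add, Prod.fst_add, smul_add] }
  have hN₀ : ∀ x, N₀ x = e • (φ (x, 0)).1 := fun x => rfl
  have hinj : Function.Injective N₀ := by
    rw [injective_iff_map_eq_zero]
    intro x hx
    rw [hN₀] at hx
    have h1 : (φ (x, 0)).1 = 0 := by
      rcases smul_eq_zero.1 hx with h1 | h1
      · exact absurd h1 he0
      · exact h1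
    have h2 : φ (x, 0) = 0 := Prod.ext h1 (hpres _ rfl)
    have h3 : ((x, 0) : V3 F) = 0 := by
      have := congrArg φ.symm h2
      simpa using this
    exact congrArg Prod.fst h3
  have hbij : Function.Bijective N₀ := by
    have : Finite (F × F) := inferInstance
    exact Finite.injective_iff_bijective.1 hinj
  refine ⟨σ, AddEquiv.ofBijective N₀ hbij, ?_, ?_⟩
  · intro c x
    simp only [AddEquiv.ofBijective_apply, hN₀]
    have : ((c • x, (0 : F)) : V3 F) = c • ((x, 0) : V3 F) := by simp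
    rw [this, hσ, Prod.smul_fst, smul_comm]
  · intro u
    simp only [AddEquiv.ofBijective_apply, hN₀]
    have key : ∀ u : F × F, u ∈ U₁ ↔ e • (φ v₁).1 + e • (φ (u, 0)).1 - v₂.1 ∈ U₂ := by
      intro u
      have h1 : u ∈ U₁ ↔ Cone U₁ v₁ ((u, 0) + v₁) := by
        unfold Cone
        simp only [Prod.fst_add, Prod.snd_add, zero_add, div_self hv₁, one_smul,
          add_sub_cancel_right, hv₁, ne_eq, not_false_eq_true, true_and, false_and, or_false]
      have h2 : Cone U₂ v₂ (φ ((u, 0) + v₁)) ↔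
          e • (φ v₁).1 + e • (φ (u, 0)).1 - v₂.1 ∈ U₂ := by
        unfold Cone
        have h3 : (φ ((u, 0) + v₁)).2 = (φ v₁).2 := by
          rw [map_add, Prod.snd_add, hpres _ rfl, zero_add]
        rw [h3, map_add, Prod.fst_add, ← hedef]
        simp only [he, ne_eq, not_false_eq_true, true_and, false_and, or_false]
        rw [smul_add, add_comm (e • (φ (u, 0)).1)]
      rw [h1, hφ, h2]
    have k0 := (key 0).1 U₁.zero_mem
    have z0 : ((0 : F × F), (0 : F)) = (0 : V3 F) := rfl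
    rw [z0, map_zero, Prod.fst_zero, smul_zero, add_zero] at k0
    rw [key u]
    have : e • (φ v₁).1 + e • (φ (u, 0)).1 - v₂.1
        = (e • (φ v₁).1 - v₂.1) + e • (φ (u, 0)).1 := by abel
    rw [this]
    exact U₂.add_mem_cancel_left k0

/-- A subgroup with `|F|` elements in which any two vectors are dependent is a line through the
origin. -/
lemma eq_line [Finite F] (U : AddSubgroup (F × F)) (hU : Nat.card U = Nat.card F)
    (hs : ¬ ∃ a ∈ U, ∃ b ∈ U, det a b ≠ 0) :
    ∃ w : F × F, w ≠ 0 ∧ ∀ x, x ∈ U ↔ ∃ c : F, x = c • w := by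
  classical
  push Not at hs
  have : Finite (F × F) := inferInstance
  have hU1 : 1 < Nat.card U := by
    rw [hU]
    exact Finite.one_lt_card
  have : Nontrivial U := (Finite.one_lt_card_iff_nontrivial).1 hU1
  obtain ⟨w, hw⟩ := exists_ne (0 : U)
  have hw0 : (w : F × F) ≠ 0 := by
    intro h
    exact hw (Subtype.ext h)
  have hsub : ∀ x ∈ U, ∃ c : F, x = c • (w : F × F) := by
    intro x hx
    have h := hs w w.2 x hx
    unfold det at h
    have hw' : (w : F × F).1 ≠ 0 ∨ (w : F × F).2 ≠ 0 := by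
      by_contra hcon
      push Not at hcon
      exact hw0 (Prod.ext hcon.1 hcon.2)
    rcases hw' with hw' | hw'
    · refine ⟨x.1 / (w : F × F).1, ?_⟩
      ext
      · simp [div_mul_cancel₀ _ hw']
      · simp only [Prod.smul_snd, smul_eq_mul]
        rw [div_mul_eq_mul_div, eq_div_iff hw']
        linear_combination h
    · refine ⟨x.2 / (w : F × F).2, ?_⟩
      ext
      · simp only [Prod.smul_fst, smul_eq_mul]
        rw [div_mul_eq_mul_div, eq_div_iff hw']
        linear_combination -h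
      · simp [div_mul_cancel₀ _ hw']
  choose! c hc using hsub
  have hinj : Function.Injective (fun x : U => c x) := by
    intro x y hxy
    apply Subtype.ext
    have hxy' : c (x : F × F) = c (y : F × F) := hxy
    rw [hc x x.2, hc y y.2, hxy']
  have hbij : Function.Bijective (fun x : U => c x) :=
    (Nat.bijective_iff_injective_and_card _).2 ⟨hinj, hU⟩
  refine ⟨w, hw0, fun x => ⟨fun hx => ⟨c x, hc x hx⟩, ?_⟩⟩
  rintro ⟨d, rfl⟩
  obtain ⟨y, hy⟩ := hbij.2 d
  have hy' : c (y : F × F) = d := hy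
  rw [← hy', ← hc y y.2]
  exact y.2

/-- Any two lines through the origin are equivalent. -/
lemma gamma_of_lines (U₁ U₂ : AddSubgroup (F × F))
    (h₁ : ∃ w : F × F, w ≠ 0 ∧ ∀ x, x ∈ U₁ ↔ ∃ c : F, x = c • w)
    (h₂ : ∃ w : F × F, w ≠ 0 ∧ ∀ x, x ∈ U₂ ↔ ∃ c : F, x = c • w) : GammaEquiv U₁ U₂ := by
  obtain ⟨w₁, hw₁, h₁⟩ := h₁
  obtain ⟨w₂, hw₂, h₂⟩ := h₂
  -- a complement for each vector
  have hcomp : ∀ w : F × F, w ≠ 0 → ∃ w' : F × F, det w w' ≠ 0 := by
    intro w hw
    have hw' : w.1 ≠ 0 ∨ w.2 ≠ 0 := by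
      by_contra hcon
      push Not at hcon
      exact hw (Prod.ext hcon.1 hcon.2)
    rcases hw' with hw' | hw'
    · exact ⟨(0, 1), by simpa [det] using hw'⟩
    · exact ⟨(1, 0), by simpa [det] using hw'⟩
  obtain ⟨t₁, ht₁⟩ := hcomp w₁ hw₁
  obtain ⟨t₂, ht₂⟩ := hcomp w₂ hw₂
  -- the linear map with `w₁ ↦ w₂`, `t₁ ↦ t₂`
  let L : ∀ (a b a' b' : F × F), det a b ≠ 0 → (F × F) →+ (F × F) := fun a b a' b' _ =>
    { toFun := fun x => (det x b / det a b) • a' + (det a x / det a b) • b'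
      map_zero' := by simp [det]
      map_add' := by
        intro x y
        ext <;> simp [det] <;> ring }
  have hL : ∀ (a b a' b' : F × F) (hab : det a b ≠ 0) (x : F × F),
      L a b a' b' hab x = (det x b / det a b) • a' + (det a x / det a b) • b' :=
    fun _ _ _ _ _ _ => rfl
  have hinv : ∀ (a b a' b' : F × F) (hab : det a b ≠ 0) (hab' : det a' b' ≠ 0) (x : F × F),
      L a' b' a b hab' (L a b a' b' hab x) = x := by
    intro a b a' b' hab hab' x
    rw [hL a b a' b' hab, hL a' b' a b hab']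
    have e1 : det ((det x b / det a b) • a' + (det a x / det a b) • b') b' / det a' b'
        = det x b / det a b := by
      rw [div_eq_iff hab']
      simp only [det, Prod.fst_add, Prod.smul_fst, Prod.snd_add, Prod.smul_snd, smul_eq_mul]
      ring
    have e2 : det a' ((det x b / det a b) • a' + (det a x / det a b) • b') / det a' b'
        = det a x / det a b := by
      rw [div_eq_iff hab']
      simp only [det, Prod.fst_add, Prod.smul_fst, Prod.snd_add, Prod.smul_snd, smul_eq_mul]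
      ring
    rw [e1, e2]
    exact (decomp a b x hab).symm
  refine ⟨RingEquiv.refl F,
    { toFun := L w₁ t₁ w₂ t₂ ht₁
      invFun := L w₂ t₂ w₁ t₁ ht₂
      left_inv := hinv _ _ _ _ ht₁ ht₂
      right_inv := hinv _ _ _ _ ht₂ ht₁
      map_add' := (L w₁ t₁ w₂ t₂ ht₁).map_add }, ?_, ?_⟩
  · intro c x
    change L w₁ t₁ w₂ t₂ ht₁ (c • x) = c • L w₁ t₁ w₂ t₂ ht₁ x
    rw [hL _ _ _ _ ht₁, hL _ _ _ _ ht₁]
    ext <;> simp [det] <;> ring
  · intro x
    change x ∈ U₁ ↔ L w₁ t₁ w₂ t₂ ht₁ x ∈ U₂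
    have hw : ∀ (a b a' b' : F × F) (hab : det a b ≠ 0) (c : F),
        L a b a' b' hab (c • a) = c • a' := by
      intro a b a' b' hab c
      rw [hL _ _ _ _ hab]
      have e1 : det (c • a) b / det a b = c := by
        rw [div_eq_iff hab]
        simp only [det, Prod.smul_fst, Prod.smul_snd, smul_eq_mul]
        ring
      have e2 : det a (c • a) = 0 := by
        simp only [det, Prod.smul_fst, Prod.smul_snd, smul_eq_mul]
        ring
      rw [e1, e2, zero_div, zero_smul, add_zero]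
    rw [h₁, h₂]
    constructor
    · rintro ⟨c, rfl⟩
      exact ⟨c, hw _ _ _ _ ht₁ _⟩
    · rintro ⟨c, hc⟩
      refine ⟨c, ?_⟩
      rw [← hinv w₁ t₁ w₂ t₂ ht₁ ht₂ x, hc, hw _ _ _ _ ht₂]

lemma GammaEquiv.symm {U₁ U₂ : AddSubgroup (F × F)} (h : GammaEquiv U₁ U₂) :
    GammaEquiv U₂ U₁ := by
  obtain ⟨σ, N, hN, hU⟩ := h
  refine ⟨σ.symm, N.symm, ?_, ?_⟩
  · intro c x
    apply N.injective
    rw [hN, N.apply_symm_apply, N.apply_symm_apply, σ.apply_symm_apply]
  · intro x
    rw [hU, N.apply_symm_apply]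

/-- The main implication. -/
theorem gamma_of_coll [Finite F] [CharP F 2] (U₁ U₂ : AddSubgroup (F × F)) (v₁ v₂ : V3 F)
    (hU₁ : Nat.card U₁ = Nat.card F) (hU₂ : Nat.card U₂ = Nat.card F)
    (hv₁ : v₁.2 ≠ 0) (hv₂ : v₂.2 ≠ 0) (h : CollEquiv (arc U₁ v₁) (arc U₂ v₂)) :
    GammaEquiv U₁ U₂ := by
  obtain ⟨σ, φ, hσ, hφ⟩ := h
  have hg : Good U₁ v₁ U₂ v₂ φ := by
    refine ⟨⟨σ, hσ⟩, ?_⟩
    intro x
    by_cases hx : x = 0
    · rw [hx, map_zero]
      exact ⟨fun h => absurd h (cone_zero _ _), fun h => absurd h (cone_zero _ _)⟩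
    · have hx' : φ x ≠ 0 := by
        intro h
        apply hx
        have := congrArg φ.symm h
        simpa using this
      rw [← mem_arc U₁ v₁ x hv₁ hx, ← mem_arc U₂ v₂ (φ x) hv₂ hx']
      exact hφ x hx
  by_cases hs₂ : ∃ a ∈ U₂, ∃ b ∈ U₂, det a b ≠ 0
  · obtain ⟨ψ, hψ, hp⟩ := exists_preserving hU₁ hU₂ hv₂ hs₂ hg
    exact gamma_of_preserving hv₁ hv₂ hψ hp
  · by_cases hs₁ : ∃ a ∈ U₁, ∃ b ∈ U₁, det a b ≠ 0
    · obtain ⟨ψ, hψ, hp⟩ := exists_preserving hU₂ hU₁ hv₁ hs₁ hg.symm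
      exact (gamma_of_preserving hv₂ hv₁ hψ hp).symm
    · exact gamma_of_lines U₁ U₂ (eq_line U₁ hU₁ hs₁) (eq_line U₂ hU₂ hs₂)

/-- The converse implication. -/
theorem coll_of_gamma [Finite F] [CharP F 2] (U₁ U₂ : AddSubgroup (F × F)) (v₁ v₂ : V3 F)
    (hv₁ : v₁.2 ≠ 0) (hv₂ : v₂.2 ≠ 0) (h : GammaEquiv U₁ U₂) :
    CollEquiv (arc U₁ v₁) (arc U₂ v₂) := by
  obtain ⟨σ, N, hN, hU⟩ := h
  -- the collineation `(x, z) ↦ (N x + σ z • d, σ z * e)` with `v₁ ↦ v₂`
  set e : F := v₂.2 / σ v₁.2 with hedef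
  have hσ1 : σ v₁.2 ≠ 0 := by
    intro h0
    exact hv₁ ((map_eq_zero σ).1 h0)
  have he : e ≠ 0 := div_ne_zero hv₂ hσ1
  set d : F × F := (σ v₁.2)⁻¹ • (v₂.1 - N v₁.1) with hddef
  let φ₀ : V3 F →+ V3 F :=
    { toFun := fun x => (N x.1 + σ x.2 • d, σ x.2 * e)
      map_zero' := by simp
      map_add' := by
        intro x y
        ext <;> simp <;> ring }
  have hφ₀ : ∀ x, φ₀ x = (N x.1 + σ x.2 • d, σ x.2 * e) := fun _ => rfl
  have hinj : Function.Injective φ₀ := by
    rw [injective_iff_map_eq_zero]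
    intro x hx
    rw [hφ₀] at hx
    have h2 := congrArg Prod.snd hx
    simp only [Prod.snd_zero, mul_eq_zero, he, or_false] at h2
    have h1 := congrArg Prod.fst hx
    simp only [h2, zero_smul, add_zero, Prod.fst_zero] at h1
    have h3 : x.2 = 0 := (map_eq_zero σ).1 h2
    have h4 : x.1 = 0 := by
      have := congrArg N.symm h1
      simpa using this
    exact Prod.ext h4 h3
  have : Finite (V3 F) := inferInstanceAs (Finite ((F × F) × F))
  have hbij : Function.Bijective φ₀ := Finite.injective_iff_bijective.1 hinj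
  refine ⟨σ, AddEquiv.ofBijective φ₀ hbij, ?_, ?_⟩
  · intro c x
    simp only [AddEquiv.ofBijective_apply, hφ₀]
    apply Prod.ext
    · simp only [Prod.smul_fst, Prod.smul_snd, hN, smul_eq_mul, map_mul, smul_add, smul_smul]
    · simp only [Prod.smul_snd, smul_eq_mul, map_mul]
      ring
  · intro x hx
    have hx' : (AddEquiv.ofBijective φ₀ hbij) x ≠ 0 := by
      intro h
      exact hx ((injective_iff_map_eq_zero φ₀).1 hinj x h)
    rw [mem_arc U₁ v₁ x hv₁ hx, mem_arc U₂ v₂ _ hv₂ hx']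
    simp only [AddEquiv.ofBijective_apply]
    unfold Cone
    rw [hφ₀]
    by_cases h2 : x.2 = 0
    · simp only [h2, map_zero, zero_smul, add_zero, zero_mul, ne_eq, not_true_eq_false, false_and,
        true_and, false_or]
      constructor
      · intro h c hc hcU
        apply h (σ.symm c)
        · intro h0
          apply hc
          have := congrArg σ h0
          simpa using this
        · rw [hU, hN, σ.apply_symm_apply]
          exact hcU
      · intro h c hc hcU
        apply h (σ c)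
        · intro h0
          exact hc ((map_eq_zero σ).1 h0)
        · rw [← hN, ← hU]
          exact hcU
    · have h3 : σ x.2 ≠ 0 := fun h0 => h2 ((map_eq_zero σ).1 h0)
      have h4 : σ x.2 * e ≠ 0 := mul_ne_zero h3 he
      simp only [h2, h4, ne_eq, not_false_eq_true, true_and, false_and, or_false]
      rw [hU]
      have e1 : (v₂.2 / (σ x.2 * e)) • (N x.1 + σ x.2 • d) - v₂.1
          = N ((v₁.2 / x.2) • x.1 - v₁.1) := by
        rw [map_sub, hN, map_div₀]
        have e2 : v₂.2 / (σ x.2 * e) = σ v₁.2 / σ x.2 := by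
          rw [hedef]
          field_simp
        rw [e2, smul_add, smul_smul, div_mul_cancel₀ _ h3, hddef, smul_smul,
          mul_inv_cancel₀ hσ1, one_smul]
        abel
      rw [e1]

lemma span_emb_eq (U : AddSubgroup (F × F)) (v : V3 F) (a b : F × F) (ha : a ∈ U) (hb : b ∈ U)
    (hab : det a b ≠ 0) (hv : v ∉ span F (emb U : Set (V3 F))) : v.2 ≠ 0 := by
  intro h0
  apply hv
  have e : v = (det v.1 b / det a b) • ((a, 0) : V3 F) + (det a v.1 / det a b) • ((b, 0) : V3 F) := by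
    apply Prod.ext
    · exact decomp a b v.1 hab
    · simp [h0]
  rw [e]
  apply add_mem
  · apply smul_mem
    apply subset_span
    exact (mem_emb U _).2 ⟨ha, rfl⟩
  · apply smul_mem
    apply subset_span
    exact (mem_emb U _).2 ⟨hb, rfl⟩

/-- A club contained in a line has `i = n`; otherwise `i < n`. -/
lemma club_line [Finite F] {n i : ℕ} (U : AddSubgroup (F × F)) (h : IsClub n i U) :
    (¬ ∃ a ∈ U, ∃ b ∈ U, det a b ≠ 0) ↔ i = n := by
  obtain ⟨hcard, P, ⟨u, hu, hu0, hP⟩, hPi, hrest⟩ := h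
  have : Finite (F × F) := inferInstance
  have : Finite U := inferInstance
  have hle : i = n ↔ ∀ x ∈ U, x ∈ P := by
    constructor
    · rintro rfl x hx
      let f : {u : F × F // u ∈ U ∧ u ∈ P} → U := fun x => ⟨x.1, x.2.1⟩
      have hf : Function.Injective f := by
        intro x y hxy
        apply Subtype.ext
        have h1 : (f x : F × F) = f y := by rw [hxy]
        exact h1
      have hb : Function.Bijective f :=
        (Nat.bijective_iff_injective_and_card f).2 ⟨hf, by rw [hPi, hcard]⟩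
      obtain ⟨y, hy⟩ := hb.2 ⟨x, hx⟩
      have := congrArg Subtype.val hy
      simp only [f] at this
      rw [← this]
      exact y.2.2
    · intro hall
      have e : Nat.card {u : F × F // u ∈ U ∧ u ∈ P} = Nat.card U := by
        apply Nat.card_congr
        exact
          { toFun := fun x => ⟨x.1, x.2.1⟩
            invFun := fun x => ⟨x.1, x.2, hall _ x.2⟩
            left_inv := fun x => rfl
            right_inv := fun x => rfl }
      rw [hPi, hcard] at e
      exact Nat.pow_right_injective (le_refl 2) e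
  rw [hle]
  constructor
  · intro hs x hx
    push Not at hs
    have h := hs u hu x hx
    rw [hP, mem_span_singleton]
    unfold det at h
    have hw' : u.1 ≠ 0 ∨ u.2 ≠ 0 := by
      by_contra hcon
      push Not at hcon
      exact hu0 (Prod.ext hcon.1 hcon.2)
    rcases hw' with hw' | hw'
    · refine ⟨x.1 / u.1, ?_⟩
      ext
      · simp [div_mul_cancel₀ _ hw']
      · simp only [Prod.smul_snd, smul_eq_mul]
        rw [div_mul_eq_mul_div, div_eq_iff hw']
        linear_combination -h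
    · refine ⟨x.2 / u.2, ?_⟩
      ext
      · simp only [Prod.smul_fst, smul_eq_mul]
        rw [div_mul_eq_mul_div, div_eq_iff hw']
        linear_combination h
      · simp [div_mul_cancel₀ _ hw']
  · rintro hall ⟨a, ha, b, hb, hab⟩
    apply hab
    have h1 := hall a ha
    have h2 := hall b hb
    rw [hP, mem_span_singleton] at h1 h2
    obtain ⟨c, rfl⟩ := h1
    obtain ⟨d, rfl⟩ := h2
    simp only [det, Prod.smul_fst, Prod.smul_snd, smul_eq_mul]
    ring

/-- For arbitrary additive subgroups `U₁, U₂` with `2 ^ n = |F|` elements and vectors `v₁, v₂` off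
the line `X₂ = 0`, the point sets `arc U₁ v₁` and `arc U₂ v₂` are `PΓL(3, F)`-equivalent if and only
if `U₁` and `U₂` are `ΓL(2, F)`-equivalent. -/
theorem coll_iff_gamma (F : Type u) [Field F] [CharP F 2] (n : ℕ) (hF : Nat.card F = 2 ^ n)
    (U₁ U₂ : AddSubgroup (F × F)) (hU₁ : Nat.card U₁ = 2 ^ n) (hU₂ : Nat.card U₂ = 2 ^ n)
    (v₁ v₂ : V3 F) (hv₁ : v₁.2 ≠ 0) (hv₂ : v₂.2 ≠ 0) :
    CollEquiv (arc U₁ v₁) (arc U₂ v₂) ↔ GammaEquiv U₁ U₂ := by
  have : Finite F := Nat.finite_of_card_ne_zero (by rw [hF]; positivity)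
  exact ⟨gamma_of_coll U₁ U₂ v₁ v₂ (by rw [hU₁, hF]) (by rw [hU₂, hF]) hv₁ hv₂,
    coll_of_gamma U₁ U₂ v₁ v₂ hv₁ hv₂⟩

/-- **Q1 of MP_5fce70_co is true.**  Let `F` be a field with `2 ^ n` elements.  If `U₁, U₂` are
additive subgroups of `F × F` which define `i`-clubs and are not `ΓL(2, F)`-equivalent, then
`arc U₁ v₁` and `arc U₂ v₂` are not `PΓL(3, F)`-equivalent, for all vectors `v₁`, `v₂` outside the
`F`-spans of `U₁`, `U₂`. -/
theorem result : ∀ (F : Type u) [Field F] [CharP F 2] (n i : ℕ), Nat.card F = 2 ^ n →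
    ∀ (U₁ U₂ : AddSubgroup (F × F)), IsClub n i U₁ → IsClub n i U₂ → ¬ GammaEquiv U₁ U₂ →
    ∀ v₁ v₂ : V3 F, v₁ ∉ span F (emb U₁ : Set (V3 F)) → v₂ ∉ span F (emb U₂ : Set (V3 F)) →
      ¬ CollEquiv (arc U₁ v₁) (arc U₂ v₂) := by
  intro F _ _ n i hF U₁ U₂ h₁ h₂ hne v₁ v₂ hv₁ hv₂ hc
  have : Finite F := Nat.finite_of_card_ne_zero (by rw [hF]; positivity)
  apply hne
  by_cases hin : i = n
  · have hs₁ := (club_line U₁ h₁).2 hin
    have hs₂ := (club_line U₂ h₂).2 hin
    exact gamma_of_lines U₁ U₂ (eq_line U₁ (by rw [h₁.1, hF]) hs₁)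
      (eq_line U₂ (by rw [h₂.1, hF]) hs₂)
  · have hs₁ := mt (club_line U₁ h₁).1 hin
    have hs₂ := mt (club_line U₂ h₂).1 hin
    rw [not_not] at hs₁ hs₂
    obtain ⟨a, ha, b, hb, hab⟩ := hs₁
    obtain ⟨a', ha', b', hb', hab'⟩ := hs₂
    exact gamma_of_coll U₁ U₂ v₁ v₂ (by rw [h₁.1, hF]) (by rw [h₂.1, hF])
      (span_emb_eq U₁ v₁ a b ha hb hab hv₁) (span_emb_eq U₂ v₂ a' b' ha' hb' hab' hv₂) hc

end Pool.Agent.Results.MP_5fce70_co.InequivalentArcs
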